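import Mathlib
import Pool.Agent.X175.Cake.Core

/-!
Truthful cake cutting for two agents.  No truthful mechanism that allocates the whole cake is
`α`-approximately proportional, for any `α > 0`; this holds already on the domain of strictly
positive piecewise-constant densities.  In other words, a truthful `α`-approximately proportional
mechanism for two agents has to leave cake of positive length unallocated at some profile of
strictly positive densities.
-/

open MeasureTheory Set Pool.Agent.X175.Cake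

namespace Pool.Agent.Results.MP_e28e82_lc.WholeCakeTwoAgents

/-- A direct-revelation mechanism for two agents: the reported densities are mapped to the two
pieces. -/
structure Mechanism where
  /-- the piece of agent 1 -/
  piece₁ : (ℝ → ℝ) → (ℝ → ℝ) → Set ℝ
  /-- the piece of agent 2 -/
  piece₂ : (ℝ → ℝ) → (ℝ → ℝ) → Set ℝ

/-- On hungry profiles the outcome is an allocation: disjoint measurable subsets of `[0,1]`. -/
def Mechanism.IsAllocation (M : Mechanism) : Prop :=
  ∀ f g, Hungry f → Hungry g →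
    MeasurableSet (M.piece₁ f g) ∧ MeasurableSet (M.piece₂ f g) ∧
    M.piece₁ f g ⊆ Icc 0 1 ∧ M.piece₂ f g ⊆ Icc 0 1 ∧ Disjoint (M.piece₁ f g) (M.piece₂ f g)

/-- On hungry profiles the whole cake is allocated, up to a null set. -/
def Mechanism.WholeCake (M : Mechanism) : Prop :=
  ∀ f g, Hungry f → Hungry g → volume (Icc (0 : ℝ) 1 \ (M.piece₁ f g ∪ M.piece₂ f g)) = 0

/-- Reporting the true density is a dominant strategy (true and reported densities hungry). -/
def Mechanism.Truthful (M : Mechanism) : Prop :=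
  (∀ f f' g, Hungry f → Hungry f' → Hungry g →
    ∫ x in M.piece₁ f' g, f x ≤ ∫ x in M.piece₁ f g, f x) ∧
  (∀ f g g', Hungry f → Hungry g → Hungry g' →
    ∫ x in M.piece₂ f g', g x ≤ ∫ x in M.piece₂ f g, g x)

/-- On every hungry profile each agent gets at least `α / 2` of the value of the cake. -/
def Mechanism.ApproxProportional (M : Mechanism) (α : ℝ) : Prop :=
  ∀ f g, Hungry f → Hungry g →
    α / 2 * ∫ x in Icc (0 : ℝ) 1, f x ≤ ∫ x in M.piece₁ f g, f x ∧
    α / 2 * ∫ x in Icc (0 : ℝ) 1, g x ≤ ∫ x in M.piece₂ f g, g x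

lemma integrableOn_of_isPC {g : ℝ → ℝ} (hg : IsPC g) : IntegrableOn g (Icc (0 : ℝ) 1) := by
  obtain ⟨P, hPf, hPo, hPc, hP⟩ := hg
  have h1 : IntegrableOn g (⋃ I ∈ P, I ∩ Icc (0 : ℝ) 1) := by
    rw [integrableOn_finite_biUnion hPf]
    intro I hI
    rcases (I ∩ Icc (0 : ℝ) 1).eq_empty_or_nonempty with h | ⟨x0, hx0⟩
    · rw [h]; exact integrableOn_empty
    · have hm : MeasurableSet (I ∩ Icc (0 : ℝ) 1) := (hPo I hI).measurableSet.inter measurableSet_Icc
      have hfin : volume (I ∩ Icc (0 : ℝ) 1) ≠ ⊤ :=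
        ((measure_mono inter_subset_right).trans_lt (by simp)).ne
      have hc : IntegrableOn (fun _ => g x0) (I ∩ Icc (0 : ℝ) 1) := integrableOn_const hfin
      exact hc.congr_fun (fun x hx => hP I hI x0 hx0 x hx) hm
  refine h1.mono_set ?_
  intro x hx
  obtain ⟨I, hI, hxI⟩ := hPc hx
  exact mem_biUnion hI ⟨hxI, hx⟩

lemma val_eq (f : ℝ → ℝ) {X : Set ℝ} (hX : X ⊆ Icc (0 : ℝ) 1) : val f X = ∫ x in X, f x := by
  unfold val lam
  rw [Measure.restrict_restrict_of_subset hX]

lemma val_univ (f : ℝ → ℝ) : val f univ = ∫ x in Icc (0 : ℝ) 1, f x := by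
  unfold val lam
  rw [Measure.restrict_univ]

/-- For two agents no truthful mechanism that allocates the whole cake is `α`-approximately
proportional for some `α > 0`, even when all densities are strictly positive. -/
theorem result (α : ℝ) (hα : 0 < α) :
    ¬ ∃ M : Mechanism, M.IsAllocation ∧ M.WholeCake ∧ M.Truthful ∧ M.ApproxProportional α := by
  rintro ⟨M, hal, hwc, htr, hap⟩
  have hsum : ∀ f g, Hungry f → Hungry g →
      (∫ x in M.piece₁ f g, g x) + (∫ x in M.piece₂ f g, g x) = ∫ x in Icc (0 : ℝ) 1, g x := by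
    intro f g hf hg
    obtain ⟨h1, h2, h3, h4, h5⟩ := hal f g hf hg
    have hi := integrableOn_of_isPC hg.1
    rw [← setIntegral_union h5 h2 (hi.mono_set h3) (hi.mono_set h4)]
    apply setIntegral_congr_set
    rw [ae_eq_set]
    refine ⟨?_, hwc f g hf hg⟩
    rw [sdiff_eq_empty.2 (union_subset h3 h4)]
    exact measure_empty
  have hsum' : ∀ f g g', Hungry f → Hungry g → Hungry g' →
      (∫ x in M.piece₁ f g', g x) + (∫ x in M.piece₂ f g', g x) = ∫ x in Icc (0 : ℝ) 1, g x := by
    intro f g g' hf hg hg'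
    obtain ⟨h1, h2, h3, h4, h5⟩ := hal f g' hf hg'
    have hi := integrableOn_of_isPC hg.1
    rw [← setIntegral_union h5 h2 (hi.mono_set h3) (hi.mono_set h4)]
    apply setIntegral_congr_set
    rw [ae_eq_set]
    refine ⟨?_, hwc f g' hf hg'⟩
    rw [sdiff_eq_empty.2 (union_subset h3 h4)]
    exact measure_empty
  have hnn : ∀ f, Hungry f → 0 ≤ ∫ x in Icc (0 : ℝ) 1, f x := fun f hf =>
    setIntegral_nonneg measurableSet_Icc (fun x hx => (hf.2 x hx).le)
  refine core_false (A := M.piece₁) (b := min (α / 2) (1 / 2)) (by positivity) (min_le_right _ _)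
    ⟨fun f g hf hg => (hal f g hf hg).1, ?_, ?_, ?_, ?_⟩
  · intro f f' g hf hf' hg
    rw [val_eq f (hal f' g hf' hg).2.2.1, val_eq f (hal f g hf hg).2.2.1]
    exact htr.1 f f' g hf hf' hg
  · intro f g g' hf hg hg'
    rw [val_eq g (hal f g hf hg).2.2.1, val_eq g (hal f g' hf hg').2.2.1]
    have h1 := htr.2 f g g' hf hg hg'
    have h2 := hsum f g hf hg
    have h3 := hsum' f g g' hf hg hg'
    linarith
  · intro f g hf hg
    rw [val_eq f (hal f g hf hg).2.2.1, val_univ]
    have h1 := (hap f g hf hg).1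
    have h2 : min (α / 2) (1 / 2) * ∫ x in Icc (0 : ℝ) 1, f x ≤
        α / 2 * ∫ x in Icc (0 : ℝ) 1, f x :=
      mul_le_mul_of_nonneg_right (min_le_left _ _) (hnn f hf)
    linarith
  · intro f g hf hg
    rw [val_eq g (hal f g hf hg).2.2.1, val_univ]
    have h1 := (hap f g hf hg).2
    have h2 : min (α / 2) (1 / 2) * ∫ x in Icc (0 : ℝ) 1, g x ≤
        α / 2 * ∫ x in Icc (0 : ℝ) 1, g x :=
      mul_le_mul_of_nonneg_right (min_le_left _ _) (hnn g hg)
    have h3 := hsum f g hf hg
    linarith

end Pool.Agent.Results.MP_e28e82_lc.WholeCakeTwoAgents
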